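import Pool.Agent.L7h32.SG.Num
import Pool.Agent.L7h85.SG.Geo2

/-!
# The numerical Hodge standard conjecture from the middle codimension
-/

set_option linter.unusedVariables false
set_option linter.unusedSectionVars false

open CategoryTheory AlgebraicGeometry CategoryTheory.Limits Finset

universe u v

namespace Pool.Agent.L7h32.SG

open Pool.Agent.H914 Pool.Agent.H914.VarClass Pool.Agent.H914.VarClass.Obj
  Pool.Agent.H914.WeilCohomology Pool.Agent.H281R3.HT Pool.Agent.W552 Pool.Agent.W539.Ker Module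
  Pool.Agent.L7h85.SG

variable {k : Type u} [Field k] {𝒱 : VarClass k} {ops : CycleOps 𝒱}
  {W : WeilCohomology.{u, v} ops}

/-- Algebraic classes of the middle codimension. -/
lemma mid_of {P : PV W} {d : ℕ} (hd : P.X.dim = 2 * d) {x : W.H P.X} (hx : AS W P.X x)
    (hg : x ∈ W.gr P.X (2 * d)) : Mid P 1 x := by
  refine ⟨hx, ?_, rfl⟩
  change wt (W.isInternal P.X) P.X.dim x = 0
  rw [Fr.wt_gr hg, hd, sub_self, zero_smul]

/-- The inequality of Cauchy and Schwarz on the middle classes. -/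
lemma cs_mid (P : PV W)
    (hpos : ∀ x, Mid P 1 x → ∃ q : ℚ, 0 ≤ q ∧ P.b x x = (q : W.K))
    {x y : W.H P.X} (hx : Mid P 1 x) (hy : Mid P 1 y) (h0 : P.b x x = 0) :
    P.b x y = 0 := by
  obtain ⟨a, ha⟩ := P.gd.fr.bf_rat hx.1 hy.1
  obtain ⟨b, hb0, hb⟩ := hpos y hy
  have key : ∀ t : ℚ, 0 ≤ 2 * t * a + b := by
    intro t
    have hm : Mid P 1 ((t : W.K) • x + y) := by
      refine ⟨(hx.1.smul t).add hy.1, ?_, rfl⟩
      rw [map_add, map_smul, hx.2.1, hy.2.1, smul_zero, add_zero]
    obtain ⟨c, hc0, hc⟩ := hpos _ hm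
    have h1 : (c : W.K) = ((2 * t * a + b : ℚ) : W.K) := by
      rw [← hc]
      simp only [map_add, map_smul, LinearMap.add_apply, LinearMap.smul_apply, smul_eq_mul]
      rw [as_symm P.gd hy.1 hx.1, h0, hb, ha]
      push_cast
      ring
    have h2 : c = 2 * t * a + b := by exact_mod_cast h1
    rw [← h2]
    exact hc0
  have ha0 : a = 0 := by
    by_contra hne
    have h3 := key (-(b + 1) / (2 * a))
    have h4 : 2 * (-(b + 1) / (2 * a)) * a = -(b + 1) := by field_simp
    rw [h4] at h3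
    linarith
  have h5 : P.b x y = (a : W.K) := ha
  rw [h5, ha0, Rat.cast_zero]

theorem s_HDM (W : WeilCohomology.{u, v} ops) : S_HDM W := by
  intro P d hd hpos j hj z hz hN hnz
  have F := P.gd.fr
  obtain ⟨v, hv, hs⟩ := (ap_alg F).decomp_low (mulLeft_isHom F.hD) W_hbd j hj (W.cl P.X z)
    ⟨z, hz, rfl⟩
  set n := P.X.dim with hn
  set L := LinearMap.mulLeft W.K (W.cl P.X P.D) with hL
  have hcross : ∀ b ≤ j, ∀ b' ≤ j, b ≠ b' →
      W.tr P.X ((L ^ b) (v b) * (L ^ (n - 2 * j + b')) (v b')) = 0 := by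
    intro b hb b' hb' hne
    rcases lt_or_gt_of_ne hne with h | h
    · rw [← L_pow_self F.hD, ← Module.End.mul_apply, ← pow_add,
        L_pow_gt (n := n) (i := 2 * (j - b)) (hv b hb).2 (by omega), zero_mul, map_zero]
    · rw [L_pow_self F.hD, ← Module.End.mul_apply, ← pow_add,
        L_pow_gt (n := n) (i := 2 * (j - b')) (hv b' hb').2 (by omega), mul_zero, map_zero]
  have hsum : ∀ b ≤ j, W.tr P.X (W.cl P.X z * (L ^ (n - 2 * j + b)) (v b)) =
      W.tr P.X ((L ^ b) (v b) * (L ^ (n - 2 * j + b)) (v b)) := by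
    intro b hb
    conv_lhs => rw [hs]
    rw [Finset.sum_mul, map_sum, Finset.sum_eq_single b]
    · intro b' hb' hne
      rw [Finset.mem_range] at hb'
      exact hcross b' (by omega) b hb hne
    · intro h0
      exact absurd (Finset.mem_range.2 (by omega)) h0
  -- the components other than the first one are isotropic
  have hiso : ∀ b ≤ j, 1 ≤ b → W.tr P.X ((L ^ b) (v b) * (L ^ (n - 2 * j + b)) (v b)) = 0 := by
    intro b hb hb1
    have h1 : (L ^ (b - 1)) (v b) ∈ algClasses W P.X (j - b + (b - 1)) :=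
      (ap_alg F).map_L_pow (b - 1) (hv b hb).1
    obtain ⟨w, hw, hw'⟩ := h1
    have hw2 : P.X.IsCyc (P.X.dim - (P.X.dim - j + 1)) w := by
      rw [show P.X.dim - (P.X.dim - j + 1) = j - b + (b - 1) by omega]
      exact hw
    have h2 := hN w hw2
    have h3 : P.X.IsCyc P.X.dim (ops.mul (divPow ops P.D (n - 2 * j + 1) z) w) := by
      have h4 := ops.mul_mem (divPow_mem (ops := ops) F.hD (n - 2 * j + 1) hz) hw
      rwa [show j + (n - 2 * j + 1) + (j - b + (b - 1)) = P.X.dim by omega] at h4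
    have h5 := W.tr_cl h3
    rw [h2, Rat.cast_zero, W.cl_mul, cl_divPow, hw', L_pow_self F.hD, ← Module.End.mul_apply,
      ← pow_add, show n - 2 * j + 1 + (b - 1) = n - 2 * j + b by omega, hsum b hb] at h5
    exact h5
  -- the values of the form
  have hform : ∀ b ≤ j, bf W P.X P.D P.f ((L ^ (d - j + b)) (v b)) ((L ^ (d - j + b)) (v b)) =
      (((d - j + b).factorial * ((d - j + b).factorial : ℚ)⁻¹ : ℚ) : W.K) *
        ((-1 : W.K) ^ (j - b) * W.tr P.X ((L ^ b) (v b) * (L ^ (n - 2 * j + b)) (v b))) := by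
    intro b hb
    rw [bf_L_pow F (n := j - b) (by omega) (alg_gr (hv b hb).1) (hv b hb).2 (j := d - j + b)
      (by omega), show P.X.dim - 2 * (j - b) - (d - j + b) = d - j + b by omega]
    have e1 : (L ^ (d - j + b)) (v b) = (L ^ (d - j)) ((L ^ b) (v b)) := by
      rw [pow_add, Module.End.mul_apply]
    have e2 : W.tr P.X ((L ^ (d - j + b)) (v b) * (L ^ (d - j + b)) (v b)) =
        W.tr P.X ((L ^ b) (v b) * (L ^ (n - 2 * j + b)) (v b)) := by
      conv_lhs => rw [e1]
      rw [L_pow_self F.hD, ← e1, ← Module.End.mul_apply, ← pow_add,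
        show d - j + (d - j + b) = n - 2 * j + b by omega]
    rw [e2]
  have hpair : ((pairing ops P.X P.D j z z : ℚ) : W.K) =
      (-1 : W.K) ^ j * W.tr P.X ((L ^ 0) (v 0) * (L ^ (n - 2 * j + 0)) (v 0)) := by
    rw [pairing_cast F.hD hj hz hz]
    congr 1
    have h1 : (L ^ (P.X.dim - 2 * j)) (W.cl P.X z) =
        ∑ b ∈ range (j + 1), (L ^ (n - 2 * j + b)) (v b) := by
      conv_lhs => rw [hs]
      rw [map_sum]
      apply Finset.sum_congr rfl
      intro b _
      rw [← Module.End.mul_apply, ← pow_add]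
    rw [h1, Finset.mul_sum, map_sum, Finset.sum_eq_single 0, hsum 0 (Nat.zero_le _)]
    · intro b hb hb0
      rw [Finset.mem_range] at hb
      rw [hsum b (by omega)]
      exact hiso b (by omega) (by omega)
    · intro h0
      exact absurd (Finset.mem_range.2 (by omega)) h0
  have hMid : ∀ b ≤ j, Mid P 1 ((L ^ (d - j + b)) (v b)) := by
    intro b hb
    have h1 := (ap_alg F).map_L_pow (d - j + b) (hv b hb).1
    rw [show j - b + (d - j + b) = d by omega] at h1
    exact mid_of (d := d) (by omega) (AS.of h1) (alg_gr h1)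
  by_contra hneg
  push Not at hneg
  have h0 : P.b ((L ^ (d - j + 0)) (v 0)) ((L ^ (d - j + 0)) (v 0)) = 0 := by
    obtain ⟨q, hq, hq'⟩ := hpos _ (hMid 0 (Nat.zero_le _))
    have h1 := hform 0 (Nat.zero_le _)
    simp only [Nat.sub_zero] at h1
    rw [← hpair, ← Rat.cast_mul] at h1
    have h2 : q = ((d - j + 0).factorial : ℚ) * ((d - j + 0).factorial : ℚ)⁻¹ *
        pairing ops P.X P.D j z z := by
      have := hq'.symm.trans h1
      exact_mod_cast this
    have h3 : (0 : ℚ) < ((d - j + 0).factorial : ℚ) * ((d - j + 0).factorial : ℚ)⁻¹ := by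
      positivity
    have h4 : q ≤ 0 := by
      rw [h2]
      exact mul_nonpos_of_nonneg_of_nonpos h3.le hneg
    rw [hq', le_antisymm h4 hq, Rat.cast_zero]
  have hall : ∀ b ≤ j, P.b ((L ^ (d - j + b)) (v b)) ((L ^ (d - j + b)) (v b)) = 0 := by
    intro b hb
    rcases Nat.eq_zero_or_pos b with rfl | hb1
    · exact h0
    · have h1 := hform b hb
      rw [hiso b hb hb1, mul_zero, mul_zero] at h1
      exact h1
  have hrad : ∀ w, Mid P 1 w → P.b ((L ^ (d - j)) (W.cl P.X z)) w = 0 := by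
    intro w hw
    rw [hs, map_sum, map_sum, LinearMap.sum_apply]
    apply Finset.sum_eq_zero
    intro b hb
    rw [Finset.mem_range] at hb
    rw [← Module.End.mul_apply, ← pow_add]
    exact cs_mid P hpos (hMid b (by omega)) hw (hall b (by omega))
  apply hnz
  intro w hw
  obtain ⟨w', hw', hww⟩ := F.lefschetzA j hj w hw
  rw [cl_divPow] at hww
  have h1 : (L ^ (d - j)) (W.cl P.X w') ∈ algClasses W P.X d := by
    have h2 := (ap_alg F).map_L_pow (d - j) (c := W.cl P.X w') ⟨w', hw', rfl⟩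
    rwa [show j + (d - j) = d by omega] at h2
  have h2 : Mid P 1 (st W P.X P.D P.f ((L ^ (d - j)) (W.cl P.X w'))) := by
    refine mid_of (d := d) (by omega) (F.st_AS (AS.of h1)) ?_
    have h3 := P.gd.ls.star_mem (i := 2 * d) (by omega) (alg_gr h1)
    rwa [show 2 * P.X.dim - 2 * d = 2 * d by omega] at h3
  have h3 := hrad _ h2
  have h4 : W.tr P.X ((L ^ (d - j)) (W.cl P.X z) * (L ^ (d - j)) (W.cl P.X w')) = 0 := by
    have h5 : P.b ((L ^ (d - j)) (W.cl P.X z)) (st W P.X P.D P.f ((L ^ (d - j)) (W.cl P.X w'))) =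
        W.tr P.X ((L ^ (d - j)) (W.cl P.X z) * st W P.X P.D P.f (st W P.X P.D P.f
          ((L ^ (d - j)) (W.cl P.X w')))) := rfl
    rw [h5, P.gd.st_st_apply] at h3
    exact h3
  rw [L_pow_self F.hD, ← Module.End.mul_apply, ← pow_add,
    show d - j + (d - j) = P.X.dim - 2 * j by omega, hww] at h4
  have h5 : P.X.IsCyc P.X.dim (ops.mul z w) := by
    have h6 := ops.mul_mem hz hw
    rwa [show j + (P.X.dim - j) = P.X.dim by omega] at h6
  have h6 := W.tr_cl h5
  rw [W.cl_mul, h4] at h6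
  exact_mod_cast h6.symm

end Pool.Agent.L7h32.SG
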