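import Pool.Agent.L7h85.SG.Abs
import Pool.Agent.W539.Ker.Inertia

set_option autoImplicit false
set_option linter.unusedVariables false

/-! Signatures of rational forms: linear algebra. -/

universe u v w w'

namespace Pool.Agent.L7h32.SG

open Pool.Agent.W552 Module Finset
open Pool.Agent.L7h85.SG
open Pool.Agent.W539.Ker (OM exists_OM posIdx)

section

variable {K : Type u} [Field K] [CharZero K] {V : Type v} [AddCommGroup V] [Module K V]

/-- the rational structure as a vector space over the rational numbers -/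
lemma exists_form {M : V → Prop} {β : V →ₗ[K] V →ₗ[K] K} (h : RF M β) :
    ∃ (N : Type v) (_ : AddCommGroup N) (_ : Module ℚ N) (B : N →ₗ[ℚ] N →ₗ[ℚ] ℚ) (f : N → V),
      (∀ x, M (f x)) ∧ (∀ v, M v → ∃ x, f x = v) ∧ (∀ x y, β (f x) (f y) = ((B x y : ℚ) : K)) ∧
      ∀ x y, B x y = B y x := by
  classical
  letI : Module ℚ V := Module.compHom V (algebraMap ℚ K)
  have hsm : ∀ (q : ℚ) (x : V), q • x = (q : K) • x := fun q x => rfl
  let S : Submodule ℚ V :=
    { carrier := {x | M x}
      add_mem' := fun hx hy => h.rat.add hx hy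
      zero_mem' := h.rat.zero
      smul_mem' := fun q x hx => by
        show M (q • x)
        rw [hsm]
        exact h.rat.smul q hx }
  choose g hg using fun x y : S => h.val x.1 y.1 x.2 y.2
  have inj : ∀ a b : ℚ, (a : K) = b → a = b := fun a b hab => Rat.cast_injective hab
  refine ⟨S, inferInstance, inferInstance, LinearMap.mk₂ ℚ g ?_ ?_ ?_ ?_, fun x => x.1,
    fun x => x.2, fun v hv => ⟨⟨v, hv⟩, rfl⟩, fun x y => ?_, fun x y => ?_⟩
  · intro x x' y
    apply inj
    rw [← hg]
    push_cast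
    rw [← hg, ← hg]
    show β (x.1 + x'.1) y.1 = _
    rw [map_add, LinearMap.add_apply]
  · intro q x y
    apply inj
    rw [← hg, smul_eq_mul]
    push_cast
    rw [← hg]
    show β (q • x.1) y.1 = _
    rw [hsm, map_smul, LinearMap.smul_apply, smul_eq_mul]
  · intro x y y'
    apply inj
    rw [← hg]
    push_cast
    rw [← hg, ← hg]
    show β x.1 (y.1 + y'.1) = _
    rw [map_add]
  · intro q x y
    apply inj
    rw [← hg, smul_eq_mul]
    push_cast
    rw [← hg]
    show β x.1 (q • y.1) = _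
    rw [hsm, map_smul, smul_eq_mul]
  · rw [LinearMap.mk₂_apply]
    exact hg x y
  · rw [LinearMap.mk₂_apply, LinearMap.mk₂_apply]
    apply inj
    rw [← hg, ← hg]
    exact h.symm _ _ x.2 y.2

omit [CharZero K] in
lemma OF.li {M : V → Prop} {β : V →ₗ[K] V →ₗ[K] K} [CharZero K] {ι : Type} [Fintype ι] {y : ι → V}
    {s : ι → ℚ} (hne : ∀ i, s i ≠ 0) (hsq : ∀ i, β (y i) (y i) = (s i : K))
    (horth : ∀ i j, i ≠ j → β (y i) (y j) = 0) : LinearIndependent K y := by
  classical
  rw [Fintype.linearIndependent_iff]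
  intro a ha j
  have h1 := congrArg (fun v => β v (y j)) ha
  simp only [map_zero, LinearMap.zero_apply, map_sum, LinearMap.sum_apply, map_smul,
    LinearMap.smul_apply, smul_eq_mul] at h1
  rw [Finset.sum_eq_single j] at h1
  · rw [hsq] at h1
    rcases mul_eq_zero.1 h1 with h2 | h2
    · exact h2
    · exact absurd (Rat.cast_eq_zero.1 h2) (hne j)
  · intro i _ hij
    rw [horth i j hij, mul_zero]
  · intro hj
    exact absurd (Finset.mem_univ j) hj

end

theorem s_UNI : S_UNI.{u, v} := by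
  intro K _ _ V _ _ M β h σ σ' hs hs'
  obtain ⟨N, _, _, B, f, hf1, hf2, hf3, hf4⟩ := exists_form h
  have key : ∀ τ : ℤ, HasSg M β τ →
      τ = (posIdx (fun x y => B x y) : ℤ) - posIdx (fun x y => -B x y) := by
    rintro τ ⟨ι, _, y, s, hOF, rfl⟩
    choose x hx using fun i => hf2 (y i) (hOF.mem i)
    have hB : ∀ i, B (x i) (x i) = s i := by
      intro i
      have h1 := hf3 (x i) (x i)
      rw [hx i, hOF.sq i] at h1
      exact (Rat.cast_injective h1).symm
    have hOM : OM B x := by
      refine ⟨fun i => by rw [hB]; exact hOF.ne i, fun i j hij => ?_, fun z hz => ?_⟩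
      · have h1 := hf3 (x i) (x j)
        rw [hx i, hx j, hOF.orth i j hij] at h1
        exact Rat.cast_eq_zero.1 h1.symm
      · have h1 := hOF.max (f z) (hf1 z) (fun i => by rw [← hx i, hf3, hz i, Rat.cast_zero])
        rw [hf3] at h1
        exact Rat.cast_eq_zero.1 h1
    rw [hOM.signature_eq hf4]
    exact Finset.sum_congr rfl fun i _ => by rw [hB i]
  rw [key σ hs, key σ' hs']

theorem s_EXI : S_EXI.{u, v} := by
  intro K _ _ V _ _ _ M β h
  obtain ⟨N, _, _, B, f, hf1, hf2, hf3, hf4⟩ := exists_form h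
  obtain ⟨m, x, hx⟩ := exists_OM (B := B) hf4 (N := finrank K V) (by
    intro m x h1 h2
    have hli := OF.li (M := M) (β := β) (y := fun i => f (x i)) (s := fun i => B (x i) (x i)) h1
      (fun i => hf3 _ _) (fun i j hij => by rw [hf3, h2 i j hij, Rat.cast_zero])
    have := hli.fintype_card_le_finrank
    rwa [Fintype.card_fin] at this)
  refine ⟨_, Fin m, inferInstance, fun i => f (x i), fun i => B (x i) (x i),
    ⟨fun i => hf1 _, hx.ne, fun i => hf3 _ _, fun i j hij => by
      rw [hf3, hx.orth i j hij, Rat.cast_zero], fun z hz hz2 => ?_⟩, rfl⟩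
  obtain ⟨t, rfl⟩ := hf2 z hz
  rw [hf3, hx.max t (fun i => ?_), Rat.cast_zero]
  have h1 := hz2 i
  rw [hf3] at h1
  exact Rat.cast_eq_zero.1 h1

theorem s_SUM : S_SUM.{u, v} := by
  intro K _ _ V _ _ M M₁ M₂ β h h1 h2 hsum hort σ₁ σ₂ hs1 hs2
  obtain ⟨ι, _, y, s, hy, rfl⟩ := hs1
  obtain ⟨κ, _, z, t, hz, rfl⟩ := hs2
  have hort' : ∀ a b, M₁ a → M₂ b → β b a = 0 := fun a b ha hb => by
    rw [h.symm b a (h2 b hb) (h1 a ha)]; exact hort a b ha hb
  refine ⟨ι ⊕ κ, inferInstance, Sum.elim y z, Sum.elim s t, ⟨?_, ?_, ?_, ?_, ?_⟩, ?_⟩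
  · rintro (i | i)
    · exact h1 _ (hy.mem i)
    · exact h2 _ (hz.mem i)
  · rintro (i | i)
    · exact hy.ne i
    · exact hz.ne i
  · rintro (i | i)
    · exact hy.sq i
    · exact hz.sq i
  · rintro (i | i) (j | j) hij
    · exact hy.orth i j fun e => hij (by rw [e])
    · exact hort _ _ (hy.mem i) (hz.mem j)
    · exact hort' _ _ (hy.mem j) (hz.mem i)
    · exact hz.orth i j fun e => hij (by rw [e])
  · intro w hw hw2
    obtain ⟨a, b, ha, hb, rfl⟩ := hsum w hw
    have ha0 : β a a = 0 := by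
      refine hy.max a ha fun i => ?_
      have h3 := hw2 (Sum.inl i)
      rw [map_add, LinearMap.add_apply] at h3
      simp only [Sum.elim_inl] at h3
      rw [hort' _ _ (hy.mem i) hb, add_zero] at h3
      exact h3
    have hb0 : β b b = 0 := by
      refine hz.max b hb fun i => ?_
      have h3 := hw2 (Sum.inr i)
      rw [map_add, LinearMap.add_apply] at h3
      simp only [Sum.elim_inr] at h3
      rw [hort _ _ ha (hz.mem i), zero_add] at h3
      exact h3
    rw [map_add, map_add, LinearMap.add_apply, LinearMap.add_apply, ha0, hb0, hort a b ha hb,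
      hort' a b ha hb]
    simp
  · rw [Fintype.sum_sum_type]
    rfl

theorem s_TRA : S_TRA.{u, v} := by
  intro K _ _ V V' _ _ _ _ M M' β β' T c hc hT hM hsurj σ hs
  obtain ⟨ι, _, y, s, hy, rfl⟩ := hs
  refine ⟨ι, inferInstance, fun i => T (y i), fun i => c * s i, ⟨?_, ?_, ?_, ?_, ?_⟩, ?_⟩
  · exact fun i => hM _ (hy.mem i)
  · exact fun i => mul_ne_zero hc (hy.ne i)
  · intro i
    rw [hT _ _ (hy.mem i) (hy.mem i), hy.sq]
    push_cast
    rfl
  · intro i j hij
    rw [hT _ _ (hy.mem i) (hy.mem j), hy.orth i j hij, mul_zero]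
  · intro w hw hw2
    obtain ⟨x, hx, rfl⟩ := hsurj w hw
    rw [hT _ _ hx hx, hy.max x hx (fun i => ?_), mul_zero]
    have h1 := hw2 i
    rw [hT _ _ hx (hy.mem i)] at h1
    rcases mul_eq_zero.1 h1 with h2 | h2
    · exact absurd (Rat.cast_eq_zero.1 h2) hc
    · exact h2
  · rw [Finset.mul_sum]
    refine Finset.sum_congr rfl fun i _ => ?_
    rw [sign_mul]
    push_cast
    rfl

theorem s_BND : S_BND.{u, v} := by
  intro K _ _ V _ _ _ M β U hU σ hs
  obtain ⟨ι, _, y, s, hy, rfl⟩ := hs
  have hli := OF.li (M := M) (β := β) hy.ne hy.sq hy.orth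
  have hli2 : LinearIndependent K (fun i => (⟨y i, hU _ (hy.mem i)⟩ : U)) := by
    refine LinearIndependent.of_comp U.subtype ?_
    exact hli
  have h1 := hli2.fintype_card_le_finrank
  have h2 : |∑ i, ((SignType.sign (s i) : SignType) : ℤ)| ≤ Fintype.card ι := by
    refine (Finset.abs_sum_le_sum_abs _ _).trans ?_
    calc ∑ i, |((SignType.sign (s i) : SignType) : ℤ)| ≤ ∑ _i : ι, (1 : ℤ) := by
          refine Finset.sum_le_sum fun i _ => ?_
          rcases SignType.sign (s i) with _ | _ | _ <;> simp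
      _ = Fintype.card ι := by simp
  exact h2.trans (by exact_mod_cast h1)

end Pool.Agent.L7h32.SG
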