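import Pool.Agent.L7h85.SG.Geo

/-!
# The numerical Hodge standard conjecture and negative values of the form
-/

set_option linter.unusedVariables false
set_option linter.unusedSectionVars false

open CategoryTheory AlgebraicGeometry CategoryTheory.Limits Finset

universe u v

namespace Pool.Agent.L7h32.SG

open Pool.Agent.H914 Pool.Agent.H914.VarClass Pool.Agent.H914.VarClass.Obj
  Pool.Agent.H914.WeilCohomology Pool.Agent.H281R3.HT Pool.Agent.W552 Pool.Agent.W539.Ker Module
  Pool.Agent.L7h85.SG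

variable {k : Type u} [Field k] {𝒱 : VarClass k} {ops : CycleOps 𝒱}
  {W : WeilCohomology.{u, v} ops} {X : 𝒱.Obj} {D : X.Cycles} {f : Module.End W.K (W.H X)}

/-- The form is symmetric on the algebraic classes. -/
lemma as_symm (G : Gd W X D f) {x y : W.H X} (hx : AS W X x) (hy : AS W X y) :
    bf W X D f x y = bf W X D f y x := by
  refine AS.ind (p := fun x => bf W X D f x y = bf W X D f y x) ?_ ?_ hx
  · intro i x hx
    refine AS.ind (p := fun y => bf W X D f x y = bf W X D f y x) ?_ ?_ hy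
    · intro j y hy
      rw [G.symm (alg_gr hy) (alg_gr hx), pow_mul]
      simp
    · intro a b ha hb
      rw [map_add, map_add, LinearMap.add_apply, ha, hb]
  · intro a b ha hb
    rw [map_add, LinearMap.add_apply, map_add, ha, hb]

/-- The inequality of Cauchy and Schwarz for the semidefinite form. -/
lemma cs_zero (G : Gd W X D f)
    (hpos : ∀ x, AS W X x → ∃ q : ℚ, 0 ≤ q ∧ bf W X D f x x = (q : W.K))
    {x y : W.H X} (hx : AS W X x) (hy : AS W X y) (h0 : bf W X D f x x = 0) :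
    bf W X D f x y = 0 := by
  obtain ⟨a, ha⟩ := G.fr.bf_rat hx hy
  obtain ⟨b, hb0, hb⟩ := hpos y hy
  have key : ∀ t : ℚ, 0 ≤ 2 * t * a + b := by
    intro t
    obtain ⟨c, hc0, hc⟩ := hpos ((t : W.K) • x + y) ((hx.smul t).add hy)
    have h1 : (c : W.K) = ((2 * t * a + b : ℚ) : W.K) := by
      rw [← hc]
      simp only [map_add, map_smul, LinearMap.add_apply, LinearMap.smul_apply, smul_eq_mul]
      rw [as_symm G hy hx, h0, hb, ha]
      push_cast
      ring
    have h2 : c = 2 * t * a + b := by exact_mod_cast h1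
    rw [← h2]
    exact hc0
  have ha0 : a = 0 := by
    by_contra hne
    have h3 := key (-(b + 1) / (2 * a))
    have h4 : 2 * (-(b + 1) / (2 * a)) * a = -(b + 1) := by field_simp
    rw [h4] at h3
    linarith
  rw [ha, ha0, Rat.cast_zero]

theorem s_HDG (W : WeilCohomology.{u, v} ops) : S_HDG W := by
  intro P hpos j hj z hz hN hnz
  have F := P.gd.fr
  obtain ⟨v, hv, hs⟩ := (ap_alg F).decomp_low (mulLeft_isHom F.hD) W_hbd j hj (W.cl P.X z)
    ⟨z, hz, rfl⟩
  set n := P.X.dim with hn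
  set L := LinearMap.mulLeft W.K (W.cl P.X P.D) with hL
  have hcross : ∀ b ≤ j, ∀ b' ≤ j, b ≠ b' →
      W.tr P.X ((L ^ b) (v b) * (L ^ (n - 2 * j + b')) (v b')) = 0 := by
    intro b hb b' hb' hne
    rcases lt_or_gt_of_ne hne with h | h
    · rw [← L_pow_self F.hD, ← Module.End.mul_apply, ← pow_add,
        L_pow_gt (n := n) (i := 2 * (j - b)) (hv b hb).2 (by omega), zero_mul, map_zero]
    · rw [L_pow_self F.hD, ← Module.End.mul_apply, ← pow_add,
        L_pow_gt (n := n) (i := 2 * (j - b')) (hv b' hb').2 (by omega), mul_zero, map_zero]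
  have hsum : ∀ b ≤ j, W.tr P.X (W.cl P.X z * (L ^ (n - 2 * j + b)) (v b)) =
      W.tr P.X ((L ^ b) (v b) * (L ^ (n - 2 * j + b)) (v b)) := by
    intro b hb
    conv_lhs => rw [hs]
    rw [Finset.sum_mul, map_sum, Finset.sum_eq_single b]
    · intro b' hb' hne
      rw [Finset.mem_range] at hb'
      exact hcross b' (by omega) b hb hne
    · intro h0
      exact absurd (Finset.mem_range.2 (by omega)) h0
  -- the components other than the first one are isotropic
  have hiso : ∀ b ≤ j, 1 ≤ b → W.tr P.X ((L ^ b) (v b) * (L ^ (n - 2 * j + b)) (v b)) = 0 := by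
    intro b hb hb1
    have h1 : (L ^ (b - 1)) (v b) ∈ algClasses W P.X (j - b + (b - 1)) :=
      (ap_alg F).map_L_pow (b - 1) (hv b hb).1
    obtain ⟨w, hw, hw'⟩ := h1
    have hw2 : P.X.IsCyc (P.X.dim - (P.X.dim - j + 1)) w := by
      rw [show P.X.dim - (P.X.dim - j + 1) = j - b + (b - 1) by omega]
      exact hw
    have h2 := hN w hw2
    have h3 : P.X.IsCyc P.X.dim (ops.mul (divPow ops P.D (n - 2 * j + 1) z) w) := by
      have h4 := ops.mul_mem (divPow_mem (ops := ops) F.hD (n - 2 * j + 1) hz) hw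
      rwa [show j + (n - 2 * j + 1) + (j - b + (b - 1)) = P.X.dim by omega] at h4
    have h5 := W.tr_cl h3
    rw [h2, Rat.cast_zero, W.cl_mul, cl_divPow, hw', L_pow_self F.hD, ← Module.End.mul_apply,
      ← pow_add, show n - 2 * j + 1 + (b - 1) = n - 2 * j + b by omega, hsum b hb] at h5
    exact h5
  -- the values of the form
  have hform : ∀ b ≤ j, bf W P.X P.D P.f ((L ^ b) (v b)) ((L ^ b) (v b)) =
      ((b.factorial * ((n - 2 * (j - b) - b).factorial : ℚ)⁻¹ : ℚ) : W.K) *
        ((-1 : W.K) ^ (j - b) * W.tr P.X ((L ^ b) (v b) * (L ^ (n - 2 * j + b)) (v b))) := by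
    intro b hb
    rw [bf_L_pow F (n := j - b) (by omega) (alg_gr (hv b hb).1) (hv b hb).2 (j := b)
      (by omega), show P.X.dim - 2 * (j - b) - b = n - 2 * j + b by omega]
  have hpair : ((pairing ops P.X P.D j z z : ℚ) : W.K) =
      (-1 : W.K) ^ j * W.tr P.X ((L ^ 0) (v 0) * (L ^ (n - 2 * j + 0)) (v 0)) := by
    rw [pairing_cast F.hD hj hz hz]
    congr 1
    have h1 : (L ^ (P.X.dim - 2 * j)) (W.cl P.X z) =
        ∑ b ∈ range (j + 1), (L ^ (n - 2 * j + b)) (v b) := by
      conv_lhs => rw [hs]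
      rw [map_sum]
      apply Finset.sum_congr rfl
      intro b _
      rw [← Module.End.mul_apply, ← pow_add]
    rw [h1, Finset.mul_sum, map_sum, Finset.sum_eq_single 0, hsum 0 (Nat.zero_le _)]
    · intro b hb hb0
      rw [Finset.mem_range] at hb
      rw [hsum b (by omega)]
      exact hiso b (by omega) (by omega)
    · intro h0
      exact absurd (Finset.mem_range.2 (by omega)) h0
  have hAS : ∀ b ≤ j, AS W P.X ((L ^ b) (v b)) := by
    intro b hb
    exact AS.of ((ap_alg F).map_L_pow b (hv b hb).1)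
  by_contra hneg
  push Not at hneg
  have h0 : bf W P.X P.D P.f ((L ^ 0) (v 0)) ((L ^ 0) (v 0)) = 0 := by
    obtain ⟨q, hq, hq'⟩ := hpos _ (hAS 0 (Nat.zero_le _))
    have h1 := hform 0 (Nat.zero_le _)
    simp only [Nat.sub_zero] at h1
    rw [← hpair, ← Rat.cast_mul] at h1
    have h2 : q = (Nat.factorial 0 : ℚ) * ((n - 2 * j).factorial : ℚ)⁻¹ *
        pairing ops P.X P.D j z z := by
      have := hq'.symm.trans h1
      exact_mod_cast this
    have h3 : (0 : ℚ) < (Nat.factorial 0 : ℚ) * ((n - 2 * j).factorial : ℚ)⁻¹ := by positivity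
    have h4 : q ≤ 0 := by
      rw [h2]
      exact mul_nonpos_of_nonneg_of_nonpos h3.le hneg
    rw [h1, ← h2, le_antisymm h4 hq, Rat.cast_zero]
  have hall : ∀ b ≤ j, bf W P.X P.D P.f ((L ^ b) (v b)) ((L ^ b) (v b)) = 0 := by
    intro b hb
    rcases Nat.eq_zero_or_pos b with rfl | hb1
    · exact h0
    · rw [hform b hb, hiso b hb hb1, mul_zero, mul_zero]
  have hrad : ∀ w, AS W P.X w → bf W P.X P.D P.f (W.cl P.X z) w = 0 := by
    intro w hw
    rw [hs, map_sum, LinearMap.sum_apply]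
    apply Finset.sum_eq_zero
    intro b hb
    rw [Finset.mem_range] at hb
    exact cs_zero P.gd hpos (hAS b (by omega)) hw (hall b (by omega))
  apply hnz
  intro w hw
  have h1 : AS W P.X (W.cl P.X w) := AS.of ⟨w, hw, rfl⟩
  have h2 := hrad _ (F.st_AS h1)
  rw [bf_apply, P.gd.st_st_apply] at h2
  have h3 : P.X.IsCyc P.X.dim (ops.mul z w) := by
    have h4 := ops.mul_mem hz hw
    rwa [show j + (P.X.dim - j) = P.X.dim by omega] at h4
  have h5 := W.tr_cl h3
  rw [W.cl_mul, h2] at h5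
  exact_mod_cast h5.symm

theorem s_NEG (hGD : S_GDP W) : S_NEG hGD := by
  intro P x q hx hq hxq hr
  obtain ⟨r, hr, hr1⟩ := hr
  have F := P.gd.fr
  set d := P.X.dim with hd
  set L := LinearMap.mulLeft W.K (W.cl P.X P.D) with hL
  -- a homogeneous component with negative square
  have h1 : ∀ j, ∃ s : ℚ, bf W P.X P.D P.f (proj (W.isInternal P.X) (2 * j) x)
      (proj (W.isInternal P.X) (2 * j) x) = (s : W.K) := fun j =>
    F.bf_rat (AS.of (hx.proj j)) (AS.of (hx.proj j))
  choose s hs using h1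
  have h2 : q = ∑ j ∈ range (d + 1), s j := by
    have h3 : bf W P.X P.D P.f x x = bf W P.X P.D P.f
        (∑ j ∈ range (d + 1), proj (W.isInternal P.X) (2 * j) x)
        (∑ j ∈ range (d + 1), proj (W.isInternal P.X) (2 * j) x) := by
      rw [← Fr.AS_sum hx]
    have h4 : (q : W.K) = ((∑ j ∈ range (d + 1), s j : ℚ) : W.K) := by
      rw [← hxq, Rat.cast_sum]
      change bf W P.X P.D P.f x x = _
      rw [h3, map_sum (bf W P.X P.D P.f), LinearMap.sum_apply]
      apply Finset.sum_congr rfl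
      intro j hj
      rw [map_sum, Finset.sum_eq_single j, hs]
      · intro i _ hi
        exact F.bf_deg (proj_mem _ _ _) (proj_mem _ _ _) (by omega)
      · intro h0; exact absurd hj h0
    exact_mod_cast h4
  obtain ⟨j, hj, hj0⟩ : ∃ j ∈ range (d + 1), s j < 0 := by
    by_contra h
    push Not at h
    have := Finset.sum_nonneg h
    rw [← h2] at this
    linarith
  rw [Finset.mem_range] at hj
  -- the powers of the divisor
  have hone : (1 : W.H P.X) ∈ W.gr P.X (2 * 0) := alg_gr (l := 0) alg_one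
  have hLd : (L ^ (P.X.dim - 2 * 0 + 1)) (1 : W.H P.X) = 0 := by
    have h3 := pow_L_mem (mulLeft_isHom F.hD) hone (P.X.dim - 2 * 0 + 1)
    rw [W_hbd _ (by omega)] at h3
    exact (Submodule.mem_bot _).1 h3
  have hL0 := bf_L_pow F (n := 0) (by omega) hone hLd (j := 0) (by omega) 1
  have hLm := bf_L_pow F (n := 0) (by omega) hone hLd (j := d - j) (by omega)
    ((L ^ (d - j)) 1)
  rw [L_pow_self F.hD, ← Module.End.mul_apply, ← pow_add,
    show d - j + (P.X.dim - 2 * 0 - (d - j)) = P.X.dim - 2 * 0 - 0 by omega] at hLm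
  rw [pow_zero, Module.End.one_apply] at hL0
  obtain ⟨m, hm, hm1⟩ : ∃ m : ℚ, 0 < m ∧ bf W P.X P.D P.f ((L ^ (d - j)) 1) ((L ^ (d - j)) 1) =
      (m : W.K) := by
    set t := (-1 : W.K) ^ 0 * W.tr P.X (1 * (L ^ (P.X.dim - 2 * 0 - 0)) 1) with ht
    have h3 : t = (((P.X.dim - 2 * 0 - 0).factorial * r : ℚ) : W.K) := by
      have h4 : (r : W.K) = ((Nat.factorial 0 * ((P.X.dim - 2 * 0 - 0).factorial : ℚ)⁻¹ : ℚ) :
        W.K) * t := by rw [← hL0]; exact hr1.symm
      have h5 : ((P.X.dim - 2 * 0 - 0).factorial : W.K) ≠ 0 := by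
        exact_mod_cast Nat.factorial_ne_zero _
      push_cast at h4 ⊢
      rw [h4]
      field_simp
      simp
    refine ⟨(d - j).factorial * ((P.X.dim - 2 * 0 - (d - j)).factorial : ℚ)⁻¹ *
      ((P.X.dim - 2 * 0 - 0).factorial * r), by positivity, ?_⟩
    rw [hLm, h3, ← Rat.cast_mul]
  refine ⟨ext W (proj (W.isInternal P.X) (2 * j) x) ((L ^ (d - j)) 1), s j * m,
    mul_neg_of_neg_of_pos hj0 hm, ⟨?_, ?_, rfl⟩, ?_⟩
  · refine AS.ext (AS.of (hx.proj j)) (AS.of (j := 0 + (d - j)) ?_)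
    exact (ap_alg F).map_L_pow (d - j) (alg_one (W := W) (X := P.X))
  · have h3 : (L ^ (d - j)) (1 : W.H P.X) ∈ W.gr P.X (2 * (0 + (d - j))) :=
      alg_gr ((ap_alg F).map_L_pow (d - j) (alg_one (W := W) (X := P.X)))
    have h4 : ext W (proj (W.isInternal P.X) (2 * j) x) ((L ^ (d - j)) 1) ∈
        W.gr (P.X.prod P.X) (2 * j + 2 * (0 + (d - j))) :=
      W.mul_mem (W.map_mem _ (proj_mem _ _ _)) (W.map_mem _ h3)
    change wt (W.isInternal (P.X.prod P.X)) (P.X.prod P.X).dim _ = 0
    rw [Fr.wt_gr h4, show 2 * j + 2 * (0 + (d - j)) = (P.X.prod P.X).dim by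
      rw [dim_prod]; omega, sub_self, zero_smul]
  · change bf W (P.X.prod P.X) (ops.pull (fst P.X P.X) P.D + ops.pull (snd P.X P.X) P.D)
      (extSum W P.f P.f) _ _ = _
    rw [F.bf_ext F, hs, hm1, Rat.cast_mul]

end Pool.Agent.L7h32.SG
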